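import Pool.Agent.U319.PW.A

/-!
# Sparse sets of integers avoid the powers of almost all real numbers: the limit set (helper319)
-/

set_option autoImplicit false
open MeasureTheory Filter Topology Set
open scoped ENNReal

namespace Pool.Agent.U319.PW

theorem local_null {P : ℕ → Prop} {C : ℝ} (hC : 0 ≤ C) (hP : Sparse P C) {w : ℕ → ℝ}
    (hw0 : ∀ n, 0 ≤ w n) (hw : Summable fun n : ℕ => w n / (n : ℝ) ^ 2) {A B K M : ℝ} {h : ℝ → ℝ}
    (hA : 1 < A) (hAB : A ≤ B) (hK : 0 ≤ K)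
    (hh : ∀ x ∈ Icc A B, ∀ y ∈ Icc A B, |h x - h y| ≤ K * |x - y|)
    (hM : ∀ x ∈ Icc A B, |h x| ≤ M) (hM0 : 0 ≤ M) :
    volume {x | ∃ᶠ n in atTop, x ∈ S P A B h n (2 * w n)} = 0 := by
  have hB : 0 < B := by linarith
  have hB1 : 0 ≤ Real.log B := Real.log_nonneg (by linarith)
  have hl2 : 0 < Real.log 2 := Real.log_pos (by norm_num)
  have hlA : 0 < Real.log A := Real.log_pos hA
  obtain ⟨N₀, hN₀⟩ := exists_nat_ge ((Real.log 2 + M + Real.log B) / Real.log 2)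
  set N : ℕ := max 1 N₀ with hNdef
  have hN : 1 ≤ N := le_max_left _ _
  have hN2 : Real.log 2 + M + Real.log B ≤ N * Real.log 2 := by
    rw [← div_le_iff₀ hl2]
    refine hN₀.trans ?_
    exact_mod_cast le_max_right 1 N₀
  have e1 : ∀ᶠ n : ℕ in atTop, 2 * B * K ≤ n := by
    obtain ⟨m, hm⟩ := exists_nat_ge (2 * B * K)
    filter_upwards [eventually_ge_atTop m] with n hn
    exact hm.trans (by exact_mod_cast hn)
  have e2 : ∀ᶠ n : ℕ in atTop, 2 * (M + Real.log 2) ≤ n * Real.log A := by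
    obtain ⟨m, hm⟩ := exists_nat_ge (2 * (M + Real.log 2) / Real.log A)
    filter_upwards [eventually_ge_atTop m] with n hn
    rw [← div_le_iff₀ hlA]
    exact hm.trans (by exact_mod_cast hn)
  have e3 : ∀ᶠ n : ℕ in atTop, 2 * w n ≤ Real.exp (-M) * A ^ n / 4 := by
    have h1 := (tendsto_order.1 hw.tendsto_atTop_zero).2 1 one_pos
    have h2 := (tendsto_order.1 (tendsto_pow_const_div_const_pow_of_one_lt 2 hA)).2
      (Real.exp (-M) / 8) (by positivity)
    filter_upwards [h1, h2, eventually_gt_atTop 0] with n hn1 hn2 hn3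
    have hn3' : (0 : ℝ) < n := by exact_mod_cast hn3
    rw [div_lt_iff₀ (by positivity)] at hn1 hn2
    linarith
  obtain ⟨n₀, hn₀⟩ := eventually_atTop.1 (e1.and (e2.and (e3.and (eventually_gt_atTop 0))))
  have hvol : ∀ i : ℕ, volume (S P A B h (i + n₀) (2 * w (i + n₀))) ≤
      ENNReal.ofReal ((128 * N * B * C / (Real.log A * Real.log 2) ^ 2) *
        (2 * w (i + n₀) / ((i + n₀ : ℕ) : ℝ) ^ 2)) := by
    intro i
    obtain ⟨h1, h2, h3, h4⟩ := hn₀ (i + n₀) (by omega)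
    exact vol_S hC hP hA hB hK hh hM hM0 h1 h4 h2 (mul_nonneg two_pos.le (hw0 _)) h3 N hN hN2 hB1
  have hsum : Summable fun i : ℕ => (128 * N * B * C / (Real.log A * Real.log 2) ^ 2) *
        (2 * w (i + n₀) / ((i + n₀ : ℕ) : ℝ) ^ 2) := by
    have h1 := (summable_nat_add_iff n₀).2 hw
    have h2 := (h1.mul_left 2).mul_left (128 * N * B * C / (Real.log A * Real.log 2) ^ 2)
    refine h2.congr fun i => ?_
    ring
  have hne : ∑' i : ℕ, volume (S P A B h (i + n₀) (2 * w (i + n₀))) ≠ ∞ :=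
    ne_top_of_le_ne_top hsum.tsum_ofReal_ne_top (ENNReal.tsum_le_tsum hvol)
  have hae := ae_eventually_notMem hne
  rw [ae_iff] at hae
  refine measure_mono_null ?_ hae
  intro x hx
  simp only [mem_setOf_eq] at hx ⊢
  intro hcon
  apply hx
  have h1 : ∀ᶠ n in map (fun i => i + n₀) atTop, x ∉ S P A B h n (2 * w n) := hcon
  rwa [map_add_atTop_eq_nat n₀] at h1

/-- the bad set of a function `H` -/
def Bad (P : ℕ → Prop) (w : ℕ → ℝ) (H : ℝ → ℝ) : Set ℝ :=
  {x | 1 < x ∧ H x ≠ 0 ∧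
    ∃ᶠ n in atTop, ∃ z : ℕ, 1 ≤ z ∧ P z ∧ |(z : ℝ) - |H x| * x ^ n| ≤ 2 * w n}

theorem bad_null {P : ℕ → Prop} {C : ℝ} (hC : 0 ≤ C) (hP : Sparse P C) {w : ℕ → ℝ}
    (hw0 : ∀ n, 0 ≤ w n) (hw : Summable fun n : ℕ => w n / (n : ℝ) ^ 2) {H : ℝ → ℝ}
    (hH : ContDiffOn ℝ 1 H (Ioi 1)) : volume (Bad P w H) = 0 := by
  refine measure_null_of_locally_null _ fun α hα => ?_
  obtain ⟨h1, h2, -⟩ := hα
  have hc : ContDiffAt ℝ 1 H α := hH.contDiffAt (Ioi_mem_nhds h1)
  have hl : ContDiffAt ℝ 1 (fun x => Real.log (H x)) α := hc.log h2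
  obtain ⟨K, t, ht, hK⟩ := hl.exists_lipschitzOnWith
  obtain ⟨r, hr, hrt⟩ := Metric.nhds_basis_closedBall.mem_iff.1
    (inter_mem ht (Ioi_mem_nhds h1))
  rw [Real.closedBall_eq_Icc] at hrt
  have hAt : ∀ x ∈ Icc (α - r) (α + r), x ∈ t := fun x hx => (hrt hx).1
  have hA : 1 < α - r := (hrt (left_mem_Icc.2 (by linarith))).2
  have hα' : α ∈ Icc (α - r) (α + r) := ⟨by linarith, by linarith⟩
  have hLip : ∀ x ∈ Icc (α - r) (α + r), ∀ y ∈ Icc (α - r) (α + r),
      |Real.log (H x) - Real.log (H y)| ≤ K * |x - y| := by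
    intro x hx y hy
    have := hK.dist_le_mul x (hAt x hx) y (hAt y hy)
    simpa [Real.dist_eq] using this
  have hbd : ∀ x ∈ Icc (α - r) (α + r),
      |Real.log (H x)| ≤ |Real.log (H α)| + K * (2 * r) := by
    intro x hx
    have h3 := hLip x hx α hα'
    have h4 : |x - α| ≤ 2 * r := by
      rw [abs_le]
      constructor <;> linarith [hx.1, hx.2]
    have h5 : (K : ℝ) * |x - α| ≤ K * (2 * r) := mul_le_mul_of_nonneg_left h4 K.coe_nonneg
    have h6 := abs_sub_abs_le_abs_sub (Real.log (H x)) (Real.log (H α))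
    linarith
  have hnull := local_null hC hP hw0 hw (h := fun x => Real.log (H x)) hA (by linarith)
    K.coe_nonneg hLip hbd (by positivity)
  refine ⟨Bad P w H ∩ Icc (α - r) (α + r), ?_, ?_⟩
  · exact inter_mem self_mem_nhdsWithin
      (mem_nhdsWithin_of_mem_nhds (Icc_mem_nhds (by linarith) (by linarith)))
  · refine measure_mono_null ?_ hnull
    rintro x ⟨⟨h3, h4, h5⟩, hx⟩
    refine h5.mono fun n hn => ?_
    obtain ⟨z, hz1, hz2, hz3⟩ := hn
    refine ⟨hx, z, hz1, hz2, ?_⟩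
    rw [Real.exp_log_eq_abs h4]
    exact hz3

end Pool.Agent.U319.PW
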