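import Mathlib

/-!
# Sparse sets of integers avoid the powers of almost all real numbers (helper319)
-/

set_option autoImplicit false
open MeasureTheory Filter Topology Set
open scoped ENNReal

namespace Pool.Agent.U319.PW

/-- the set of the `x` for which `exp (h x) * x ^ n` is within `W` of `z` -/
def E (A B : ℝ) (h : ℝ → ℝ) (n : ℕ) (W : ℝ) (z : ℕ) : Set ℝ :=
  {x | x ∈ Icc A B ∧ |(z : ℝ) - Real.exp (h x) * x ^ n| ≤ W}

theorem dist_E {A B K W : ℝ} {h : ℝ → ℝ} (hA : 1 < A)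
    (hK : 0 ≤ K) (hh : ∀ x ∈ Icc A B, ∀ y ∈ Icc A B, |h x - h y| ≤ K * |x - y|) {n : ℕ}
    (hB : 0 < B) (hn : 2 * B * K ≤ n) (hn0 : 0 < n) {z : ℕ} (hz : 0 < z) (hW : W ≤ z / 2) {x y : ℝ}
    (hx : x ∈ E A B h n W z) (hy : y ∈ E A B h n W z) (hxy : y ≤ x) :
    x - y ≤ 8 * B * W / (n * z) := by
  obtain ⟨hx1, hx2⟩ := hx
  obtain ⟨hy1, hy2⟩ := hy
  have hz' : (0 : ℝ) < z := by exact_mod_cast hz
  have hn' : (0 : ℝ) < n := by exact_mod_cast hn0
  have hx0 : 0 < x := by linarith [hx1.1]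
  have hy0 : 0 < y := by linarith [hy1.1]
  rw [abs_le] at hx2 hy2
  set F : ℝ → ℝ := fun x => Real.exp (h x) * x ^ n with hF
  have hFx : 0 < F x := by positivity
  have hFy : 0 < F y := by positivity
  have hyl : (z : ℝ) / 2 ≤ F y := by
    have : (z : ℝ) - F y ≤ W := hy2.2
    linarith
  have hW0 : 0 ≤ W := by
    have h1 : (z : ℝ) - F x ≤ W := hx2.2
    have h2 : -W ≤ (z : ℝ) - F x := hx2.1
    linarith
  have hlog : Real.log (F x) - Real.log (F y) ≤ 4 * W / z := by
    rw [← Real.log_div hFx.ne' hFy.ne']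
    have h1 := Real.log_le_sub_one_of_pos (div_pos hFx hFy)
    have h2 : F x / F y - 1 = (F x - F y) / F y := by field_simp
    rw [h2] at h1
    refine h1.trans ?_
    have h3 : F x - F y ≤ 2 * W := by
      have h4 : -W ≤ (z : ℝ) - F x := hx2.1
      have h5 : (z : ℝ) - F y ≤ W := hy2.2
      linarith
    calc (F x - F y) / F y ≤ 2 * W / F y := by gcongr
      _ ≤ 2 * W / (z / 2) := by gcongr
      _ = 4 * W / z := by field_simp; ring
  have hlF : ∀ u : ℝ, 0 < u → Real.log (F u) = h u + n * Real.log u := by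
    intro u hu
    simp only [hF]
    rw [Real.log_mul (Real.exp_pos _).ne' (by positivity), Real.log_exp, Real.log_pow]
  rw [hlF x hx0, hlF y hy0] at hlog
  have h1 : (x - y) / B ≤ Real.log x - Real.log y := by
    have h2 : Real.log (y / x) ≤ y / x - 1 := Real.log_le_sub_one_of_pos (div_pos hy0 hx0)
    rw [Real.log_div hy0.ne' hx0.ne'] at h2
    have h3 : (x - y) / B ≤ (x - y) / x := by
      have := hx1.2
      have hxy' : 0 ≤ x - y := by linarith
      gcongr
    have h4 : (x - y) / x = 1 - y / x := by field_simp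
    linarith
  have h2 : -(K * (x - y)) ≤ h x - h y := by
    have h3 := hh x hx1 y hy1
    rw [abs_of_nonneg (by linarith : 0 ≤ x - y)] at h3
    exact (abs_le.1 h3).1
  have h3 : (n : ℝ) * ((x - y) / B) ≤ n * (Real.log x - Real.log y) :=
    mul_le_mul_of_nonneg_left h1 hn'.le
  have h4 : K * (x - y) ≤ n * ((x - y) / B) / 2 := by
    have hxy' : 0 ≤ x - y := by linarith
    have : n * ((x - y) / B) / 2 = (n / (2 * B)) * (x - y) := by field_simp
    rw [this]
    refine mul_le_mul_of_nonneg_right ?_ hxy'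
    rw [le_div_iff₀ (by positivity)]
    linarith
  have h5 : n * ((x - y) / B) / 2 ≤ 4 * W / z := by linarith
  have h6 : n * ((x - y) / B) / 2 = (x - y) * (n / (2 * B)) := by field_simp
  rw [h6] at h5
  rw [← le_div_iff₀ (by positivity)] at h5
  refine h5.trans (le_of_eq ?_)
  field_simp
  ring

theorem vol_E {A B K W : ℝ} {h : ℝ → ℝ} (hA : 1 < A)
    (hK : 0 ≤ K) (hh : ∀ x ∈ Icc A B, ∀ y ∈ Icc A B, |h x - h y| ≤ K * |x - y|) {n : ℕ}
    (hB : 0 < B) (hn : 2 * B * K ≤ n) (hn0 : 0 < n) {z : ℕ} (hz : 0 < z) (hW : W ≤ z / 2) :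
    volume (E A B h n W z) ≤ ENNReal.ofReal (8 * B * W / (n * z)) := by
  refine (Real.volume_le_diam _).trans (Metric.ediam_le_iff.2 fun x hx y hy => ?_)
  rw [edist_dist, Real.dist_eq]
  refine ENNReal.ofReal_le_ofReal ?_
  rcases le_total y x with hxy | hxy
  · rw [abs_of_nonneg (by linarith)]
    exact dist_E hA hK hh hB hn hn0 hz hW hx hy hxy
  · rw [abs_sub_comm, abs_of_nonneg (by linarith)]
    exact dist_E hA hK hh hB hn hn0 hz hW hy hx hxy

/-- the set of the `x` for which `exp (h x) * x ^ n` is within `W` of some `z ≥ 1` with `P z` -/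
def S (P : ℕ → Prop) (A B : ℝ) (h : ℝ → ℝ) (n : ℕ) (W : ℝ) : Set ℝ :=
  {x | x ∈ Icc A B ∧ ∃ z : ℕ, 1 ≤ z ∧ P z ∧ |(z : ℝ) - Real.exp (h x) * x ^ n| ≤ W}

/-- the counting bound -/
def Sparse (P : ℕ → Prop) (C : ℝ) : Prop :=
  ∀ X : ℕ, 2 ≤ X → ({n : ℕ | 1 ≤ n ∧ n ≤ X ∧ P n}.ncard : ℝ) ≤ C * (X / (Real.log X) ^ 2)

theorem card_T {P : ℕ → Prop} {C : ℝ} (hP : Sparse P C) (j : ℕ) (T : Finset ℕ)
    (hT : ∀ z ∈ T, 2 ^ j ≤ z ∧ z < 2 ^ (j + 1) ∧ P z) :
    (T.card : ℝ) ≤ C * (2 ^ (j + 1) / ((j + 1) * Real.log 2) ^ 2) := by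
  have h1 : (T : Set ℕ) ⊆ {n : ℕ | 1 ≤ n ∧ n ≤ 2 ^ (j + 1) ∧ P n} := by
    intro z hz
    obtain ⟨h1, h2, h3⟩ := hT z hz
    exact ⟨le_trans Nat.one_le_two_pow h1, h2.le, h3⟩
  have h2 : {n : ℕ | 1 ≤ n ∧ n ≤ 2 ^ (j + 1) ∧ P n}.Finite :=
    (Set.finite_Iic (2 ^ (j + 1))).subset fun z hz => hz.2.1
  have h3 := Set.ncard_le_ncard h1 h2
  rw [Set.ncard_coe_finset] at h3
  have h4 := hP (2 ^ (j + 1)) (by
    calc 2 = 2 ^ 1 := rfl
      _ ≤ 2 ^ (j + 1) := Nat.pow_le_pow_right (by norm_num) (by omega))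
  have h5 : (T.card : ℝ) ≤ ({n : ℕ | 1 ≤ n ∧ n ≤ 2 ^ (j + 1) ∧ P n}.ncard : ℝ) := by
    exact_mod_cast h3
  refine h5.trans (h4.trans (le_of_eq ?_))
  push_cast
  rw [Real.log_pow]
  push_cast
  rfl

theorem vol_S {P : ℕ → Prop} {C : ℝ} (hC : 0 ≤ C) (hP : Sparse P C) {A B K M W : ℝ} {h : ℝ → ℝ}
    (hA : 1 < A) (hB : 0 < B)
    (hK : 0 ≤ K) (hh : ∀ x ∈ Icc A B, ∀ y ∈ Icc A B, |h x - h y| ≤ K * |x - y|)
    (hM : ∀ x ∈ Icc A B, |h x| ≤ M) (hM0 : 0 ≤ M) {n : ℕ} (hn : 2 * B * K ≤ n) (hn0 : 0 < n)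
    (hn1 : 2 * (M + Real.log 2) ≤ n * Real.log A) (hW0 : 0 ≤ W)
    (hW : W ≤ Real.exp (-M) * A ^ n / 4) (N : ℕ) (hN : 1 ≤ N)
    (hN2 : Real.log 2 + M + Real.log B ≤ N * Real.log 2) (hB1 : 0 ≤ Real.log B) :
    volume (S P A B h n W) ≤
      ENNReal.ofReal ((128 * N * B * C / (Real.log A * Real.log 2) ^ 2) * (W / n ^ 2)) := by
  classical
  have hl2 : 0 < Real.log 2 := Real.log_pos (by norm_num)
  have hl2' : Real.log 2 < 1 := by
    have := Real.log_two_lt_d9
    linarith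
  have hlA : 0 < Real.log A := Real.log_pos hA
  have hn' : (0 : ℝ) < n := by exact_mod_cast hn0
  set Y : ℝ := Real.exp (-M) * A ^ n with hY
  have hYpos : 0 < Y := by positivity
  set J : Finset ℕ := (Finset.range (N * n + 1)).filter
    (fun j : ℕ => (n : ℝ) * Real.log A / 2 ≤ (j : ℝ) + 1) with hJ
  set T : ℕ → Finset ℕ := fun j => (Finset.Ico (2 ^ j) (2 ^ (j + 1))).filter
    (fun z : ℕ => P z ∧ Y / 2 ≤ (z : ℝ)) with hT
  have hcover : S P A B h n W ⊆ ⋃ j ∈ J, ⋃ z ∈ T j, E A B h n W z := by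
    rintro x ⟨hx, z, hz1, hPz, hz⟩
    have hx0 : 0 < x := by linarith [hx.1]
    have hhx := abs_le.1 (hM x hx)
    have hz' := abs_le.1 hz
    have hzpos : (0 : ℝ) < z := by exact_mod_cast hz1
    have hlow : Y ≤ Real.exp (h x) * x ^ n := by
      refine mul_le_mul (Real.exp_le_exp.2 hhx.1) ?_ (by positivity) (by positivity)
      exact pow_le_pow_left₀ (by linarith) hx.1 n
    have hup : Real.exp (h x) * x ^ n ≤ Real.exp M * B ^ n :=
      mul_le_mul (Real.exp_le_exp.2 hhx.2) (pow_le_pow_left₀ hx0.le hx.2 n) (by positivity)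
        (by positivity)
    have hzl : Y / 2 ≤ z := by linarith [hz'.1]
    have hzu : (z : ℝ) ≤ 2 * (Real.exp M * B ^ n) := by
      have : W ≤ Real.exp M * B ^ n := by linarith
      linarith [hz'.2]
    have hlz1 : (n : ℝ) * Real.log A / 2 ≤ Real.log z := by
      have h1 : Real.log (Y / 2) ≤ Real.log z := Real.log_le_log (by positivity) hzl
      have h2 : Real.log (Y / 2) = -M + n * Real.log A - Real.log 2 := by
        rw [Real.log_div hYpos.ne' (by norm_num), hY, Real.log_mul (by positivity) (by positivity),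
          Real.log_exp, Real.log_pow]
      rw [h2] at h1
      linarith
    have hlz2 : Real.log z ≤ Real.log 2 + M + n * Real.log B := by
      have h1 := Real.log_le_log hzpos hzu
      rw [Real.log_mul (by norm_num) (by positivity), Real.log_mul (by positivity) (by positivity),
        Real.log_exp, Real.log_pow] at h1
      linarith
    have hj1 : 2 ^ Nat.log 2 z ≤ z := Nat.pow_log_le_self 2 (by omega)
    have hj2 : z < 2 ^ (Nat.log 2 z + 1) := Nat.lt_pow_succ_log_self (by norm_num) z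
    have hj3 : Real.log z ≤ ((Nat.log 2 z : ℝ) + 1) * Real.log 2 := by
      have h1 : (z : ℝ) ≤ 2 ^ (Nat.log 2 z + 1) := by exact_mod_cast hj2.le
      have h2 := Real.log_le_log hzpos h1
      rw [Real.log_pow] at h2
      push_cast at h2
      exact h2
    have hj4 : (Nat.log 2 z : ℝ) * Real.log 2 ≤ Real.log z := by
      have h1 : (2 : ℝ) ^ (Nat.log 2 z) ≤ z := by exact_mod_cast hj1
      have h2 := Real.log_le_log (by positivity) h1
      rw [Real.log_pow] at h2
      exact h2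
    have hJm : Nat.log 2 z ∈ J := by
      rw [hJ, Finset.mem_filter, Finset.mem_range]
      constructor
      · have h1 : (Nat.log 2 z : ℝ) ≤ N * n := by
          have h2 : (Nat.log 2 z : ℝ) * Real.log 2 ≤ (N * n) * Real.log 2 := by
            have hn1' : (1 : ℝ) ≤ n := by exact_mod_cast hn0
            have h3 : Real.log 2 + M + n * Real.log B ≤ n * (Real.log 2 + M + Real.log B) := by
              have : 0 ≤ (n - 1) * (Real.log 2 + M) :=
                mul_nonneg (by linarith) (by linarith)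
              nlinarith
            have h4 : (n : ℝ) * (Real.log 2 + M + Real.log B) ≤ n * (N * Real.log 2) :=
              mul_le_mul_of_nonneg_left hN2 hn'.le
            nlinarith
          exact le_of_mul_le_mul_right h2 hl2
        have h2 : Nat.log 2 z ≤ N * n := by exact_mod_cast h1
        omega
      · have h1 : ((Nat.log 2 z : ℝ) + 1) * Real.log 2 ≤ ((Nat.log 2 z : ℝ) + 1) * 1 :=
          mul_le_mul_of_nonneg_left hl2'.le (by positivity)
        linarith
    simp only [mem_iUnion]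
    refine ⟨Nat.log 2 z, hJm, z, ?_, hx, hz⟩
    rw [hT, Finset.mem_filter, Finset.mem_Ico]
    exact ⟨⟨hj1, hj2⟩, hPz, hzl⟩
  have hbound : ∀ j ∈ J, volume (⋃ z ∈ T j, E A B h n W z) ≤
      ENNReal.ofReal (64 * B * C * W / (n ^ 3 * (Real.log A * Real.log 2) ^ 2)) := by
    intro j hj
    rw [hJ, Finset.mem_filter] at hj
    have hj1 := hj.2
    have h1 : volume (⋃ z ∈ T j, E A B h n W z) ≤ ∑ z ∈ T j, volume (E A B h n W z) :=
      measure_biUnion_finset_le _ _
    have h2 : ∑ z ∈ T j, volume (E A B h n W z) ≤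
        ∑ z ∈ T j, ENNReal.ofReal (8 * B * W / (n * 2 ^ j)) := by
      refine Finset.sum_le_sum fun z hz => ?_
      simp only [hT, Finset.mem_filter, Finset.mem_Ico] at hz
      have hz0 : 0 < z := lt_of_lt_of_le (by positivity) hz.1.1
      refine (vol_E hA hK hh hB hn hn0 hz0 (by linarith [hz.2.2])).trans
        (ENNReal.ofReal_le_ofReal ?_)
      have : (2 : ℝ) ^ j ≤ z := by exact_mod_cast hz.1.1
      gcongr
    rw [Finset.sum_const, nsmul_eq_mul] at h2
    refine h1.trans (h2.trans ?_)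
    rw [← ENNReal.ofReal_natCast, ← ENNReal.ofReal_mul (by positivity)]
    refine ENNReal.ofReal_le_ofReal ?_
    have h3 := card_T hP j (T j) (fun z hz => by
      simp only [hT, Finset.mem_filter, Finset.mem_Ico] at hz
      exact ⟨hz.1.1, hz.1.2, hz.2.1⟩)
    calc ((T j).card : ℝ) * (8 * B * W / (n * 2 ^ j))
        ≤ (C * (2 ^ (j + 1) / ((j + 1) * Real.log 2) ^ 2)) * (8 * B * W / (n * 2 ^ j)) := by
          gcongr
      _ = 16 * B * C * W / (n * (((j : ℝ) + 1) * Real.log 2) ^ 2) := by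
          field_simp
          ring
      _ ≤ 16 * B * C * W / (n * ((n * Real.log A / 2) * Real.log 2) ^ 2) := by
          gcongr
      _ = 64 * B * C * W / (n ^ 3 * (Real.log A * Real.log 2) ^ 2) := by
          field_simp
          ring
  calc volume (S P A B h n W) ≤ volume (⋃ j ∈ J, ⋃ z ∈ T j, E A B h n W z) :=
        measure_mono hcover
    _ ≤ ∑ j ∈ J, volume (⋃ z ∈ T j, E A B h n W z) := measure_biUnion_finset_le _ _
    _ ≤ ∑ j ∈ J, ENNReal.ofReal (64 * B * C * W / (n ^ 3 * (Real.log A * Real.log 2) ^ 2)) :=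
        Finset.sum_le_sum hbound
    _ = ENNReal.ofReal ((J.card : ℝ) *
          (64 * B * C * W / (n ^ 3 * (Real.log A * Real.log 2) ^ 2))) := by
        rw [Finset.sum_const, nsmul_eq_mul, ← ENNReal.ofReal_natCast,
          ← ENNReal.ofReal_mul (by positivity)]
    _ ≤ ENNReal.ofReal ((2 * (N * n)) *
          (64 * B * C * W / (n ^ 3 * (Real.log A * Real.log 2) ^ 2))) := by
        refine ENNReal.ofReal_le_ofReal ?_
        refine mul_le_mul_of_nonneg_right ?_ (by positivity)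
        have h1 : J.card ≤ N * n + 1 := (Finset.card_filter_le _ _).trans (by simp)
        have h2 : 1 ≤ N * n := Nat.one_le_iff_ne_zero.2 (by positivity)
        have h3 : J.card ≤ 2 * (N * n) := by omega
        exact_mod_cast h3
    _ = _ := by
        congr 1
        field_simp
        ring

end Pool.Agent.U319.PW
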